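import Pool.Agent.H.MP_a0e599_al.A

namespace Pool.Agent.H.MP_2bf34e_al

open ExteriorAlgebra Finset Pool.Agent.H.MP_a0e599_al Module

variable {n : ℕ} {K : Type} [Field K]

section lin

variable {E F : Type} [AddCommGroup E] [Module K E] [AddCommGroup F] [Module K F]
  [FiniteDimensional K E] [FiniteDimensional K F]

lemma line (A B : E →ₗ[K] F) :
    {s : K | finrank K (LinearMap.range (A + s • B)) < finrank K (LinearMap.range A)}.Finite := by
  obtain ⟨σ, hσ⟩ := A.rangeRestrict.exists_rightInverse_of_surjective A.range_rangeRestrict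
  obtain ⟨π, hπ⟩ := (LinearMap.range A).subtype.exists_leftInverse_of_injective
    (Submodule.ker_subtype _)
  set C : End K (LinearMap.range A) := π ∘ₗ B ∘ₗ σ with hC
  refine ((End.finite_hasEigenvalue C).image fun t => -t⁻¹).subset fun s hs => ?_
  by_contra c
  have a : ∀ v, π (A (σ v)) = v := fun v => by
    have h1 : A (σ v) = (v : F) := congrArg Subtype.val (LinearMap.congr_fun hσ v)
    rw [h1]
    exact LinearMap.congr_fun hπ v
  have inj : Function.Injective ((A + s • B) ∘ₗ σ) := by
    rw [injective_iff_map_eq_zero]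
    intro v hv
    by_contra v0
    have h1 : v + s • C v = 0 := by
      have := congrArg π hv
      simpa [a, hC] using this
    have s0 : s ≠ 0 := by
      rintro rfl
      exact v0 (by simpa using h1)
    refine c ⟨-s⁻¹, End.hasEigenvalue_of_hasEigenvector (x := v) ⟨?_, v0⟩, by simp⟩
    rw [End.mem_eigenspace_iff, eq_neg_of_add_eq_zero_left h1, map_neg, map_smul, smul_neg,
      smul_smul, neg_mul, inv_mul_cancel₀ s0, ← map_smul, ← map_neg,
      ← eq_neg_of_add_eq_zero_left h1]
    simp
  have h2 := LinearMap.finrank_range_of_inj inj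
  have h3 := Submodule.finrank_mono (LinearMap.range_comp_le_range σ (A + s • B))
  exact absurd hs (by simp only [Set.mem_setOf_eq]; omega)

lemma simul [Infinite K] {W τ : Type} [AddCommGroup W] [Module K W] [Fintype τ]
    (Φ : τ → W →ₗ[K] E →ₗ[K] F) : ∃ w, ∀ v t,
      finrank K (LinearMap.range (Φ t v)) ≤ finrank K (LinearMap.range (Φ t w)) := by
  have bd : BddAbove (Set.range fun w => ∑ t, finrank K (LinearMap.range (Φ t w))) :=
    ⟨∑ _ : τ, finrank K F, by
      rintro _ ⟨w, rfl⟩
      exact sum_le_sum fun t _ => Submodule.finrank_le _⟩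
  obtain ⟨w, hw⟩ := Nat.sSup_mem (Set.range_nonempty _) bd
  refine ⟨w, fun v t => ?_⟩
  have f1 := Set.finite_iUnion fun t => line (Φ t w) (Φ t v)
  have f2 := (Set.finite_iUnion fun t => line (Φ t v) (Φ t w)).image fun s => s⁻¹
  obtain ⟨s, hs⟩ := ((f1.union f2).insert 0).exists_notMem
  simp only [Set.mem_insert_iff, Set.mem_union, Set.mem_iUnion, Set.mem_setOf_eq, Set.mem_image,
    not_or, not_exists, not_lt, not_and] at hs
  obtain ⟨s0, h1, h2⟩ := hs
  have a : ∀ t, finrank K (LinearMap.range (Φ t w)) ≤ finrank K (LinearMap.range (Φ t (w + s • v))) :=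
    fun t => by rw [map_add, map_smul]; exact h1 t
  have b : finrank K (LinearMap.range (Φ t v)) ≤ finrank K (LinearMap.range (Φ t (w + s • v))) := by
    have : Φ t (w + s • v) = s • (Φ t v + s⁻¹ • Φ t w) := by
      rw [map_add, map_smul, smul_add, smul_smul, mul_inv_cancel₀ s0, one_smul, add_comm]
    rw [this, LinearMap.range_smul _ _ s0]
    by_contra c
    exact h2 s⁻¹ ⟨t, not_le.1 c⟩ (inv_inv s)
  have c : ∑ t, finrank K (LinearMap.range (Φ t (w + s • v))) ≤
      ∑ t, finrank K (LinearMap.range (Φ t w)) := (le_csSup bd ⟨_, rfl⟩).trans hw.ge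
  have := (sum_eq_sum_iff_of_le fun t _ => a t).1 (le_antisymm (sum_le_sum fun t _ => a t) c) t
    (mem_univ t)
  omega

lemma rank_sup (f : E →ₗ[K] F) (Y : Submodule K E) (U : Submodule K F) :
    finrank K ↥(U ⊔ Y.map f) + finrank K ↥(Y ⊓ U.comap f) = finrank K U + finrank K Y := by
  have h1 := (U.mkQ ∘ₗ f ∘ₗ Y.subtype).finrank_range_add_finrank_ker
  have h2 := (U.mkQ ∘ₗ (U ⊔ Y.map f).subtype).finrank_range_add_finrank_ker
  have e1 : LinearMap.range (U.mkQ ∘ₗ f ∘ₗ Y.subtype) =
      LinearMap.range (U.mkQ ∘ₗ (U ⊔ Y.map f).subtype) := by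
    simp [LinearMap.range_comp, Submodule.map_sup]
  have e2 : finrank K (LinearMap.ker (U.mkQ ∘ₗ f ∘ₗ Y.subtype)) = finrank K ↥(Y ⊓ U.comap f) := by
    rw [LinearMap.ker_comp, Submodule.ker_mkQ, Submodule.comap_comp, ← Submodule.map_comap_subtype,
      Submodule.finrank_map_subtype_eq]
  have e3 : finrank K (LinearMap.ker (U.mkQ ∘ₗ (U ⊔ Y.map f).subtype)) = finrank K U := by
    rw [LinearMap.ker_comp, Submodule.ker_mkQ,
      ← Submodule.finrank_map_subtype_eq, Submodule.map_comap_subtype, inf_eq_right.2 le_sup_left]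
  rw [e1] at h1
  omega

end lin

lemma odd_case [CharZero K] {d k r : ℕ} (hd : Odd d) (hr : r < k) (B : Fin k → Finset (Fin n))
    (hc : ∀ i, (B i).card = d) (hB : ∀ i j, i ≠ j → Disjoint (B i) (B j))
    (I : Submodule K (ExteriorAlgebra K (Fin n → K))) (h1 : ∀ i, ∀ y ∈ I, dv K (B i) y ∈ I)
    (h2 : ∀ y ∈ I, (∑ i, x K n (B i)) * y ∈ I)
    {g : ExteriorAlgebra K (Fin n → K)} (hg : g ∈ V K fun T => T.card = r)
    (h0 : (∑ i, x K n (B i)) * g ∈ I) :
    g ∈ I ⊔ LinearMap.range (LinearMap.mulLeft K (∑ i, x K n (B i))) := by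
  set F := ∑ i, x K n (B i) with hF
  have xB : ∀ i, x K n (B i) ∈ ⋀[K]^d (Fin n → K) := fun i => by
    rw [pow_eq]; exact x_mem (hc i)
  have FF : F * F = 0 := odd_sq hd (Submodule.sum_mem _ fun i _ => xB i)
  have hom : ∀ i y, dv K (B i) (F * y) + F * dv K (B i) y =
      pr K (Disjoint (B i)) y + pr K (B i ⊆ ·) y := by
    intro i y
    rw [hF, sum_mul, sum_mul, map_sum, ← sum_add_distrib, sum_eq_single i]
    · rw [← dv_m, ← m_dv]; rfl
    · intro j _ hj
      have := dv_comm (hB i j hj.symm) (-1 : K) (by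
        rw [odd_comm hd (xB j) (xB i), neg_smul, one_smul])
      have := LinearMap.congr_fun this y
      simp only [m, Module.End.mul_apply, LinearMap.mulLeft_apply, LinearMap.smul_apply] at this
      rw [this]; simp
    · simp
  have ind : ∀ s : Finset (Fin k), ∃ h, g - h ∈ I ⊔ LinearMap.range (LinearMap.mulLeft K F) ∧
      F * h ∈ I ∧ h ∈ V K fun T => T.card = r ∧ ∀ i ∈ s, ¬ Disjoint (B i) T := by
    intro s
    induction s using Finset.induction_on with
    | empty => exact ⟨g, by simp, h0, by simpa using hg⟩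
    | insert i s _ ih =>
      obtain ⟨h, a1, a2, a3⟩ := ih
      refine ⟨h - (dv K (B i) (F * h) + F * dv K (B i) h), ?_, ?_, ?_⟩
      · rw [← sub_add]
        exact add_mem a1 (Submodule.add_mem_sup (h1 i _ a2) ⟨_, rfl⟩)
      · rw [mul_sub, mul_add, ← mul_assoc, FF, zero_mul, add_zero]
        exact sub_mem a2 (h2 _ (h1 i _ a2))
      · rw [hom]
        refine map_V (1 - (pr K (Disjoint (B i)) + pr K (B i ⊆ ·))) (fun T hT => ?_) a3
        simp only [LinearMap.sub_apply, LinearMap.add_apply, pr_x, Module.End.one_apply]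
        by_cases c1 : Disjoint (B i) T
        · have c2 : ¬ B i ⊆ T := fun c2 => by
            have := hc i
            rw [(disjoint_self_iff_empty _).1 (c1.mono_right c2), card_empty] at this
            rw [← this] at hd
            simp at hd
          simp [c1, c2]
        · by_cases c2 : B i ⊆ T
          · simp [c1, c2]
          · simp only [c1, c2, if_false, add_zero, sub_zero]
            exact x_mem ⟨hT.1, by simpa [c1] using hT.2⟩
  obtain ⟨h, a1, -, a3⟩ := ind univ
  suffices h = 0 by simpa [this] using a1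
  refine (x K n).repr.injective (Finsupp.ext fun T => ?_)
  by_contra c
  obtain ⟨c1, c2⟩ := mem_V.1 a3 T (by simpa using c)
  choose a a1 a2 using fun i => not_disjoint_iff.1 (c2 i (mem_univ i))
  have := card_le_card_of_injOn (s := univ) (t := T) a (fun i _ => a2 i) fun i _ j _ e => by
    by_contra ne
    exact disjoint_left.1 (hB i j ne) (a1 i) (e ▸ a1 j)
  simp at this
  omega

lemma even_aux [CharZero K] {ι : Type} [DecidableEq ι] (B : ι → Finset (Fin n))
    (hn : ∀ i, (B i).Nonempty) (hB : ∀ i j, i ≠ j → Disjoint (B i) (B j))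
    (hx : ∀ i j, x K n (B i) * x K n (B j) = x K n (B j) * x K n (B i))
    (I : Submodule K (ExteriorAlgebra K (Fin n → K))) (h1 : ∀ i, ∀ y ∈ I, dv K (B i) y ∈ I)
    (h2 : ∀ i, ∀ y ∈ I, m K (B i) y ∈ I) (s : Finset ι) :
    ∀ j t : ℕ, 2 * t + j ≤ s.card + 2 → ∀ g ∈ V K fun T =>
      (s.filter fun i => ¬ Disjoint (B i) T).card < t, ((∑ i ∈ s, m K (B i)) ^ j) g ∈ I → g ∈ I := by
  have z : ∀ (s : Finset ι), ∀ g ∈ V K fun T =>
      (s.filter fun i => ¬ Disjoint (B i) T).card < 0, g ∈ I := fun s g hg => by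
    have : g = 0 := (x K n).repr.injective (Finsupp.ext fun T => by
      by_contra c
      simpa using mem_V.1 hg T (by simpa using c))
    simp [this]
  induction s using Finset.induction_on with
  | empty =>
    intro j t h g hg h0
    rcases Nat.eq_zero_or_pos t with rfl | ht
    · exact z _ g hg
    · have : j = 0 := by simp at h; omega
      simpa [this] using h0
  | insert i s hi ih =>
    intro j t h g hg h0
    rcases j with _ | j
    · simpa using h0
    rcases t with _ | t
    · exact z _ g hg
    rw [card_insert_of_notMem hi] at h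
    rw [sum_insert hi] at h0
    set F := ∑ l ∈ s, m K (B l) with hF
    have ne : ∀ l ∈ s, i ≠ l := fun l hl c => hi (c ▸ hl)
    have cm : Commute (m K (B i)) F := Commute.sum_right _ _ _ fun l _ => by
      refine LinearMap.ext fun y => ?_
      simp only [m, Module.End.mul_apply, LinearMap.mulLeft_apply, ← mul_assoc, hx i l]
    have cd : Commute (dv K (B i)) F := Commute.sum_right _ _ _ fun l hl => by
      have := dv_comm (hB _ _ (ne l hl)) (1 : K) (by rw [hx, one_smul])
      rwa [one_smul] at this
    have mm : m K (B i) * m K (B i) = 0 := by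
      refine LinearMap.ext fun y => ?_
      simp only [m, Module.End.mul_apply, LinearMap.mulLeft_apply, ← mul_assoc, x_mul]
      rw [ε_zero (by simpa using (hn i).ne_empty)]
      simp
    have um : m K (B i) * dv K (B i) * m K (B i) = m K (B i) := by
      rw [m_dv]
      refine (x K n).ext fun T => ?_
      rw [Module.End.mul_apply, m_x, map_smul, pr_x, if_pos subset_union_left]
    have pw : (m K (B i) + F) ^ (j + 1) =
        F ^ (j + 1) + ((j + 1 : ℕ) : K) • (F ^ j * m K (B i)) := by
      clear h h0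
      induction j with
      | zero => simp [add_comm]
      | succ j ih =>
        rw [pow_succ, ih, add_mul, mul_add, smul_mul_assoc, mul_add, mul_assoc, mm, mul_zero,
          zero_add, mul_assoc, cm.eq, ← mul_assoc, ← pow_succ, ← pow_succ]
        push_cast
        module
    have hFI : ∀ y ∈ I, F y ∈ I := fun y hy => by
      rw [hF, LinearMap.sum_apply]
      exact sum_mem fun l _ => h2 l y hy
    have ve : (dv K (B i) * m K (B i)) g ∈ V K fun T =>
        (s.filter fun i => ¬ Disjoint (B i) T).card < t + 1 := by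
      rw [dv_m]
      refine map_V _ (fun T hT => ?_) hg
      rw [pr_x]
      split_ifs
      · exact x_mem (lt_of_le_of_lt (card_le_card (filter_subset_filter _ (subset_insert _ _))) hT)
      · exact zero_mem _
    have cnt : ∀ T, ¬ Disjoint (B i) T →
        ((insert i s).filter fun i => ¬ Disjoint (B i) T).card < t + 1 →
        (s.filter fun i => ¬ Disjoint (B i) T).card < t := fun T a b => by
      rw [filter_insert, if_pos a, card_insert_of_notMem (fun c => hi (mem_filter.1 c).1)] at b
      omega
    have nd : ∀ T, B i ⊆ T → ¬ Disjoint (B i) T := fun T a b =>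
      (hn i).ne_empty ((disjoint_self_iff_empty _).1 (b.mono_right a))
    have vu : (m K (B i) * dv K (B i)) g ∈ V K fun T =>
        (s.filter fun i => ¬ Disjoint (B i) T).card < t := by
      rw [m_dv]
      refine map_V _ (fun T hT => ?_) hg
      rw [pr_x]
      split_ifs with c
      · exact x_mem (cnt T (nd T c) hT)
      · exact zero_mem _
    have vp : (1 - dv K (B i) * m K (B i) - m K (B i) * dv K (B i)) g ∈ V K fun T =>
        (s.filter fun i => ¬ Disjoint (B i) T).card < t := by
      rw [m_dv, dv_m]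
      refine map_V _ (fun T hT => ?_) hg
      simp only [LinearMap.sub_apply, pr_x, Module.End.one_apply]
      by_cases c1 : Disjoint (B i) T
      · have c2 : ¬ B i ⊆ T := fun c2 => nd T c2 c1
        simp [c1, c2]
      · by_cases c2 : B i ⊆ T
        · simp [c1, c2]
        · simp only [c1, c2, if_false, sub_zero]
          exact x_mem (cnt T c1 hT)
    have hM := h2 i
    have hD := h1 i
    clear hF h1 h2 z
    generalize m K (B i) = M at *
    generalize dv K (B i) = D at *
    rw [pw] at h0
    have cM : ∀ l : ℕ, M * F ^ l = F ^ l * M := fun l => (cm.pow_right l).eq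
    have cD : ∀ l : ℕ, D * F ^ l = F ^ l * D := fun l => (cd.pow_right l).eq
    have ea : D * M * (F ^ (j + 1) + ((j + 1 : ℕ) : K) • (F ^ j * M)) = F ^ (j + 1) * (D * M) := by
      rw [mul_add, mul_smul_comm, mul_assoc, cM, mul_assoc D, ← mul_assoc M, cM, mul_assoc _ M, mm,
        ← mul_assoc, cD, mul_assoc]
      simp
    have eb : M * D * (F ^ (j + 1) + ((j + 1 : ℕ) : K) • (F ^ j * M)) =
        F ^ (j + 1) * (M * D) + ((j + 1 : ℕ) : K) • (F ^ j * M) := by
      rw [mul_add, mul_smul_comm, mul_assoc, cD, ← mul_assoc, cM, mul_assoc M D, ← mul_assoc D, cD,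
        mul_assoc (F ^ j), ← mul_assoc M, cM, mul_assoc (F ^ j), ← mul_assoc M, um, mul_assoc]
    have a := hD _ (hM _ h0)
    have b := hM _ (hD _ h0)
    rw [← Module.End.mul_apply, ← Module.End.mul_apply] at a b
    rw [ea] at a
    rw [eb] at b
    have gp := ih (j + 1) t (by omega) _ vp (by
      convert sub_mem (sub_mem h0 a) b using 1
      simp
      abel)
    have gu := ih (j + 2) t (by omega) _ vu (by
      convert sub_mem (hFI _ b) (I.smul_mem ((j + 1 : ℕ) : K) (hM _ a)) using 1
      have e1 : F * (F ^ j * M) = M * (F ^ (j + 1) * (D * M)) := by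
        rw [← mul_assoc M, cM, mul_assoc _ M, ← mul_assoc M, um, ← mul_assoc, ← pow_succ']
      simp only [LinearMap.add_apply, LinearMap.smul_apply, map_add, map_smul,
        ← Module.End.mul_apply, e1, add_sub_cancel_right, ← mul_assoc, ← pow_succ'])
    have pI : ∀ l : ℕ, ∀ y ∈ I, (F ^ l) y ∈ I := fun l => by
      induction l with
      | zero => simp
      | succ l ih => exact fun y hy => by rw [pow_succ']; exact hFI _ (ih y hy)
    have c : (F ^ j * M) g ∈ I := by
      have := sub_mem b (pI (j + 1) _ gu)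
      simp only [LinearMap.add_apply, LinearMap.smul_apply, ← Module.End.mul_apply,
        add_sub_cancel_left] at this
      exact (I.smul_mem_iff (Nat.cast_ne_zero.2 (Nat.succ_ne_zero j))).1 this
    have ge := ih j (t + 1) (by omega) _ ve (by
      have := hD _ c
      rwa [← Module.End.mul_apply, ← mul_assoc, cD, mul_assoc] at this)
    convert add_mem (add_mem gp ge) gu using 1
    simp
    abel

lemma even_case [CharZero K] {d k r : ℕ} (hd : Even d) (h1d : 1 ≤ d) (hr : 2 * r < k)
    (B : Fin k → Finset (Fin n))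
    (hc : ∀ i, (B i).card = d) (hB : ∀ i j, i ≠ j → Disjoint (B i) (B j))
    (I : Submodule K (ExteriorAlgebra K (Fin n → K))) (h1 : ∀ i, ∀ y ∈ I, dv K (B i) y ∈ I)
    (h2 : ∀ i, ∀ y ∈ I, m K (B i) y ∈ I)
    {g : ExteriorAlgebra K (Fin n → K)} (hg : g ∈ V K fun T => T.card = r)
    (h0 : (∑ i, x K n (B i)) * g ∈ I) : g ∈ I := by
  have xB : ∀ i, x K n (B i) ∈ ⋀[K]^d (Fin n → K) := fun i => by
    rw [pow_eq]; exact x_mem (hc i)
  refine even_aux B (fun i => card_pos.1 (by rw [hc]; omega)) hB (fun i j => by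
    rw [gr_comm (xB i) (xB j), (hd.mul_right d).neg_one_pow, one_smul]) I h1 h2 univ 1 (r + 1)
    (by simp; omega) g (mem_V.2 fun T hT => ?_)
    (by rw [pow_one, LinearMap.sum_apply]; rw [sum_mul] at h0; exact h0)
  replace hT := mem_V.1 hg T hT
  have : ∀ i, ∃ a, ¬ Disjoint (B i) T → a ∈ B i ∧ a ∈ T := fun i => by
    by_cases c : Disjoint (B i) T
    · obtain ⟨a, -⟩ := card_pos.1 (show 0 < (B i).card by rw [hc]; omega)
      exact ⟨a, fun h => absurd c h⟩
    · obtain ⟨a, h⟩ := not_disjoint_iff.1 c
      exact ⟨a, fun _ => h⟩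
  choose a ha using this
  have := card_le_card_of_injOn (s := univ.filter fun i => ¬ Disjoint (B i) T) (t := T) a
    (fun i hi => (ha i (by simpa using hi)).2) fun i hi j hj e => by
      by_contra ne
      exact disjoint_left.1 (hB i j ne) (ha i (by simpa using hi)).1
        (e ▸ (ha j (by simpa using hj)).1)
  omega

end Pool.Agent.H.MP_2bf34e_al
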