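import Mathlib

namespace Pool.Agent.H.MP_2bf34e_al

open PowerSeries

/-- dimension of `U / (U ∩ I)` -/
noncomputable def qdim {K A : Type} [Field K] [AddCommGroup A] [Module K A]
    (U I : Submodule K A) : ℕ := Module.finrank K (↥U ⧸ I.comap U.subtype)

/-- the two-sided ideal generated by a tuple -/
def idl (K : Type) {A : Type} [Field K] [Ring A] [Algebra K A] {r : ℕ} (f : Fin r → A) :
    Submodule K A := Submodule.span K {z | ∃ i u v, z = u * f i * v}

/-- the homogeneous part of degree `k` -/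
def deg (K : Type) [Field K] (n k : ℕ) : Submodule K (ExteriorAlgebra K (Fin n → K)) :=
  ⋀[K]^k (Fin n → K)

/-- dimension of the degree `k` part of the quotient by the two-sided ideal of `f` -/
noncomputable def hf {K : Type} [Field K] {n r : ℕ} (f : Fin r → ExteriorAlgebra K (Fin n → K))
    (k : ℕ) : ℕ := qdim (deg K n k) (idl K f)

/-- tuples of forms of degrees `d i` -/
def Tup {K : Type} [Field K] {n r : ℕ} (d : Fin r → ℕ)
    (f : Fin r → ExteriorAlgebra K (Fin n → K)) : Prop := ∀ i, f i ∈ deg K n (d i)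

/-- generic tuples -/
def Gen {K : Type} [Field K] {n r : ℕ} (d : Fin r → ℕ)
    (f : Fin r → ExteriorAlgebra K (Fin n → K)) : Prop :=
  Tup d f ∧ ∀ g : Fin r → ExteriorAlgebra K (Fin n → K), Tup d g → ∀ k, hf f k ≤ hf g k

/-- the conjectured limit -/
noncomputable def PP {r : ℕ} (d : Fin r → ℕ) : ℚ⟦X⟧ :=
  ∏ i, if Even (d i) then 1 - X ^ d i else (1 + X ^ d i)⁻¹

/-- the normalised Hilbert series -/
noncomputable def QQ (n : ℕ) (a : ℕ → ℕ) : ℚ⟦X⟧ := (mk fun j => (a j : ℚ)) * ((1 + X) ^ n)⁻¹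

/-- the limit statement over the field `K` -/
def Conj (K : Type) [Field K] : Prop :=
  ∀ (r : ℕ) (d : Fin r → ℕ), 1 ≤ r → (∀ i, 1 ≤ d i) → ∀ k : ℕ, ∃ N : ℕ, ∀ n ≥ N,
    ∀ f : Fin r → ExteriorAlgebra K (Fin n → K), Gen d f →
      coeff k (QQ n (hf f)) = coeff k (PP d)

end Pool.Agent.H.MP_2bf34e_al
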