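import Pool.Agent.H.MP_2bf34e_al.A
import Pool.Agent.H.MP_2bf34e_al.D

namespace Pool.Agent.H.MP_2bf34e_al

open ExteriorAlgebra Finset Pool.Agent.H.MP_a0e599_al Module

variable {n r : ℕ} {K : Type} [Field K]

instance : FiniteDimensional K (ExteriorAlgebra K (Fin n → K)) :=
  Module.Finite.of_basis (x K n)

lemma deg_eq (k : ℕ) : deg K n k = V K fun T => T.card = k := pow_eq k

/-- right ideal -/
noncomputable def II (f : Fin r → ExteriorAlgebra K (Fin n → K)) (s : Finset (Fin r)) :
    Submodule K (ExteriorAlgebra K (Fin n → K)) :=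
  ⨆ i ∈ s, LinearMap.range (LinearMap.mulLeft K (f i))

lemma mem_II {f : Fin r → ExteriorAlgebra K (Fin n → K)} {s : Finset (Fin r)} {i : Fin r}
    (hi : i ∈ s) (y : ExteriorAlgebra K (Fin n → K)) : f i * y ∈ II f s :=
  Submodule.mem_iSup_of_mem i (Submodule.mem_iSup_of_mem hi ⟨y, rfl⟩)

lemma map_II {f : Fin r → ExteriorAlgebra K (Fin n → K)} {s : Finset (Fin r)}
    (φ : End K (ExteriorAlgebra K (Fin n → K))) {W : Submodule K (ExteriorAlgebra K (Fin n → K))}
    (h : ∀ i ∈ s, ∀ y, φ (f i * y) ∈ W) {g : ExteriorAlgebra K (Fin n → K)} (hg : g ∈ II f s) :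
    φ g ∈ W := by
  refine (show II f s ≤ W.comap φ from iSup₂_le fun i hi => ?_) hg
  rintro _ ⟨y, rfl⟩
  exact h i hi y

lemma II_insert (f : Fin r → ExteriorAlgebra K (Fin n → K)) (s : Finset (Fin r)) (i : Fin r) :
    II f (insert i s) = II f s ⊔ LinearMap.range (LinearMap.mulLeft K (f i)) := by
  rw [II, Finset.iSup_insert, sup_comm]
  rfl

lemma II_mul {d : Fin r → ℕ} {f : Fin r → ExteriorAlgebra K (Fin n → K)} (hf : Tup d f)
    {s : Finset (Fin r)} (u : ExteriorAlgebra K (Fin n → K))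
    {g : ExteriorAlgebra K (Fin n → K)} (hg : g ∈ II f s) : u * g ∈ II f s := by
  refine map_V (P := fun _ => True) (LinearMap.mulRight K g) (fun T _ => ?_)
    (mem_V.2 fun _ _ => trivial)
  refine map_II (LinearMap.mulLeft K (x K n T)) (fun i hi y => ?_) hg
  have a : x K n T ∈ ⋀[K]^T.card (Fin n → K) := by rw [pow_eq]; exact x_mem rfl
  rw [LinearMap.mulLeft_apply, ← mul_assoc, gr_comm a (hf i), smul_mul_assoc, mul_assoc]
  exact Submodule.smul_mem _ _ (mem_II hi _)

lemma idl_eq {d : Fin r → ℕ} {f : Fin r → ExteriorAlgebra K (Fin n → K)} (hf : Tup d f) :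
    idl K f = II f univ := by
  refine le_antisymm (Submodule.span_le.2 ?_) (iSup₂_le fun i _ => ?_)
  · rintro _ ⟨i, u, v, rfl⟩
    rw [mul_assoc]
    exact II_mul hf u (mem_II (mem_univ i) v)
  · rintro _ ⟨y, rfl⟩
    exact Submodule.subset_span ⟨i, 1, y, by simp⟩

lemma pr_mul {d k : ℕ} {f : ExteriorAlgebra K (Fin n → K)} (hf : f ∈ deg K n d)
    (y : ExteriorAlgebra K (Fin n → K)) :
    pr K (fun T => T.card = k) (f * y) = f * pr K (fun T => T.card + d = k) y := by
  rw [deg_eq] at hf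
  rw [← sub_eq_zero, ← Submodule.mem_bot K]
  refine map_V (pr K (fun T => T.card = k) ∘ₗ LinearMap.mulRight K y -
    LinearMap.mulRight K (pr K (fun T => T.card + d = k) y)) (fun S hS => ?_) hf
  refine map_V (P := fun _ => True) (pr K (fun T => T.card = k) ∘ₗ LinearMap.mulLeft K (x K n S) -
    LinearMap.mulLeft K (x K n S) ∘ₗ pr K (fun T => T.card + d = k)) (fun T _ => ?_)
    (mem_V.2 fun _ _ => trivial)
  simp only [LinearMap.sub_apply, LinearMap.comp_apply, LinearMap.mulLeft_apply, x_mul, map_smul,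
    pr_x, Submodule.mem_bot]
  by_cases h : Disjoint S T
  · simp only [card_union_of_disjoint h, hS, add_comm d]
    split_ifs <;> simp [x_mul]
  · split_ifs <;> simp [x_mul, ε_zero h]

lemma pr_self {P : Finset (Fin n) → Prop} [DecidablePred P] {g : ExteriorAlgebra K (Fin n → K)}
    (hg : g ∈ V K P) : pr K P g = g := by
  rw [← sub_eq_zero, ← Submodule.mem_bot K]
  refine map_V (pr K P - 1) (fun T hT => ?_) hg
  simp [pr_x, hT]

lemma pr_mem {P : Finset (Fin n) → Prop} [DecidablePred P] (g : ExteriorAlgebra K (Fin n → K)) :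
    pr K P g ∈ V K P := by
  refine map_V (P := fun _ => True) _ (fun T _ => ?_) (mem_V.2 fun _ _ => trivial)
  rw [pr_x]
  split_ifs with h
  · exact x_mem h
  · exact zero_mem _

/-- homogeneous part of the ideal -/
noncomputable def JJ (f : Fin r → ExteriorAlgebra K (Fin n → K)) (s : Finset (Fin r)) (k : ℕ) :
    Submodule K (ExteriorAlgebra K (Fin n → K)) := (V K fun T => T.card = k) ⊓ II f s

lemma JJ_insert {d : Fin r → ℕ} {f : Fin r → ExteriorAlgebra K (Fin n → K)} (hf : Tup d f)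
    (s : Finset (Fin r)) (i : Fin r) (k : ℕ) : JJ f (insert i s) k =
      JJ f s k ⊔ (V K fun T => T.card + d i = k).map (LinearMap.mulLeft K (f i)) := by
  apply le_antisymm
  · rintro g ⟨h1, h2⟩
    rw [← pr_self h1]
    refine map_II _ (fun j hj y => ?_) h2
    rcases mem_insert.1 hj with rfl | hj
    · rw [pr_mul (hf j)]
      exact Submodule.mem_sup_right ⟨_, pr_mem _, rfl⟩
    · refine Submodule.mem_sup_left ⟨pr_mem _, ?_⟩
      rw [pr_mul (hf j)]
      exact mem_II hj _
  · refine sup_le (inf_le_inf_left _ (by rw [II_insert]; exact le_sup_left)) ?_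
    rintro _ ⟨y, hy, rfl⟩
    refine ⟨?_, mem_II (mem_insert_self _ _) _⟩
    rw [LinearMap.mulLeft_apply, ← pr_self hy, ← pr_mul (hf i)]
    exact pr_mem _

/-- dimensions -/
noncomputable def bb (f : Fin r → ExteriorAlgebra K (Fin n → K)) (s : Finset (Fin r)) (k : ℕ) : ℕ :=
  finrank K (JJ f s k)

lemma V_rank (k : ℕ) : finrank K (V K fun T : Finset (Fin n) => T.card = k) = n.choose k := by
  rw [← pow_eq, exteriorPower.finrank_eq]
  simp

lemma hf_add {d : Fin r → ℕ} {f : Fin r → ExteriorAlgebra K (Fin n → K)} (h : Tup d f) (k : ℕ) :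
    hf f k + bb f univ k = n.choose k := by
  unfold hf qdim bb JJ
  rw [idl_eq h, deg_eq, ← V_rank (K := K) k, ← Submodule.map_comap_subtype,
    Submodule.finrank_map_subtype_eq, Submodule.finrank_quotient_add_finrank]

lemma bb_lt {d : Fin r → ℕ} {f : Fin r → ExteriorAlgebra K (Fin n → K)} (h : Tup d f)
    (s : Finset (Fin r)) (i : Fin r) {k : ℕ} (hk : k < d i) : bb f (insert i s) k = bb f s k := by
  have : (V K fun T : Finset (Fin n) => T.card + d i = k) = ⊥ := by
    rw [V, Submodule.span_eq_bot]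
    rintro _ ⟨T, hT, rfl⟩
    simp only [Set.mem_setOf_eq] at hT
    omega
  rw [bb, JJ_insert h, this, Submodule.map_bot, sup_bot_eq, bb]

lemma bb_add {d : Fin r → ℕ} {f : Fin r → ExteriorAlgebra K (Fin n → K)} (h : Tup d f)
    (s : Finset (Fin r)) (i : Fin r) (k : ℕ) : bb f (insert i s) (k + d i) +
      finrank K ↥((V K fun T => T.card = k) ⊓ (II f s).comap (LinearMap.mulLeft K (f i))) =
      bb f s (k + d i) + n.choose k := by
  have e : (V K fun T : Finset (Fin n) => T.card + d i = k + d i) = V K fun T => T.card = k := by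
    simp only [add_left_inj]
  have e2 : (V K fun T => T.card = k) ⊓ (II f s).comap (LinearMap.mulLeft K (f i)) =
      (V K fun T => T.card = k) ⊓ (JJ f s (k + d i)).comap (LinearMap.mulLeft K (f i)) := by
    refine le_antisymm (fun y hy => ⟨hy.1, ?_, hy.2⟩) fun y hy => ⟨hy.1, hy.2.2⟩
    have := hy.1
    rw [← e] at this
    rw [LinearMap.mulLeft_apply, ← pr_self this, ← pr_mul (h i)]
    exact pr_mem _
  rw [bb, JJ_insert h, e, e2, rank_sup, V_rank, bb]

lemma bb_even {d : Fin r → ℕ} {f : Fin r → ExteriorAlgebra K (Fin n → K)} (h : Tup d f)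
    (s : Finset (Fin r)) (i : Fin r) (k : ℕ) :
    bb f (insert i s) (k + d i) + bb f s k ≤ bb f s (k + d i) + n.choose k := by
  rw [← bb_add h]
  exact Nat.add_le_add_left (Submodule.finrank_mono
    (inf_le_inf_left _ fun y hy => II_mul h _ hy)) _

lemma bb_odd [CharZero K] {d : Fin r → ℕ} {f : Fin r → ExteriorAlgebra K (Fin n → K)}
    (h : Tup d f) (s : Finset (Fin r)) (i : Fin r) (hd : Odd (d i)) (k : ℕ) :
    bb f (insert i s) (k + d i) + bb f (insert i s) k ≤ bb f s (k + d i) + n.choose k := by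
  rw [← bb_add h]
  refine Nat.add_le_add_left (Submodule.finrank_mono (inf_le_inf_left _ ?_)) _
  rw [II_insert]
  refine sup_le (fun y hy => II_mul h _ hy) ?_
  rintro _ ⟨y, rfl⟩
  simp [← mul_assoc, odd_sq hd (h i)]

lemma bb_big (f : Fin r → ExteriorAlgebra K (Fin n → K)) (s : Finset (Fin r)) {k : ℕ}
    (hk : n < k) : bb f s k = 0 := by
  have := Submodule.finrank_mono (show JJ f s k ≤ _ from inf_le_left)
  rw [V_rank, Nat.choose_eq_zero_of_lt hk] at this
  exact Nat.le_zero.1 this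

lemma JJ_eq {d : Fin r → ℕ} {f : Fin r → ExteriorAlgebra K (Fin n → K)} (hf : Tup d f)
    (k : ℕ) (s : Finset (Fin r)) : JJ f s k =
      ⨆ i ∈ s, (V K fun T => T.card + d i = k).map (LinearMap.mulLeft K (f i)) := by
  induction s using Finset.induction_on with
  | empty => simp [JJ, II]
  | insert i s _ ih => rw [JJ_insert hf, ih, Finset.iSup_insert, sup_comm]

lemma exists_max [Infinite K] (d : Fin r → ℕ) : ∃ f : Fin r → ExteriorAlgebra K (Fin n → K),
    Tup d f ∧ ∀ g : Fin r → ExteriorAlgebra K (Fin n → K), Tup d g → ∀ s k,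
      bb g s k ≤ bb f s k := by
  let Φ : Finset (Fin r) × Fin (n + 1) → (∀ i, deg K n (d i)) →ₗ[K]
      (Fin r → ExteriorAlgebra K (Fin n → K)) →ₗ[K] ExteriorAlgebra K (Fin n → K) := fun t =>
    ∑ i ∈ t.1, (LinearMap.mul K _).compl₁₂ ((deg K n (d i)).subtype ∘ₗ LinearMap.proj i)
      (pr K (fun T => T.card + d i = t.2) ∘ₗ LinearMap.proj i)
  have hΦ : ∀ t w, LinearMap.range (Φ t w) = JJ (fun i => (w i).1) t.1 t.2 := by
    intro t w
    rw [JJ_eq fun i => (w i).2]
    apply le_antisymm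
    · rintro _ ⟨y, rfl⟩
      simp only [Φ, LinearMap.sum_apply]
      exact sum_mem fun i hi => Submodule.mem_iSup_of_mem i
        (Submodule.mem_iSup_of_mem hi ⟨_, pr_mem (y i), rfl⟩)
    · refine iSup₂_le fun i hi => ?_
      rintro _ ⟨y, hy, rfl⟩
      refine ⟨Pi.single i y, ?_⟩
      simp only [Φ, LinearMap.sum_apply]
      rw [sum_eq_single i]
      · simp [pr_self hy]
      · intro j _ hj
        simp [Pi.single_eq_of_ne hj]
      · exact fun h => absurd hi h
  obtain ⟨w, hw⟩ := simul Φ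
  refine ⟨fun i => (w i).1, fun i => (w i).2, fun g hg s k => ?_⟩
  rcases Nat.lt_or_ge n k with hk | hk
  · rw [bb_big _ _ hk]
    exact Nat.zero_le _
  · have := hw (fun i => ⟨g i, hg i⟩) (s, ⟨k, by omega⟩)
    rwa [hΦ, hΦ] at this

lemma exists_special [CharZero K] (d : Fin r → ℕ) (hd : ∀ i, 1 ≤ d i) (k₀ : ℕ)
    (hn : ∑ i, (2 * k₀ + 1) * d i ≤ n) : ∃ f : Fin r → ExteriorAlgebra K (Fin n → K),
    Tup d f ∧ ∀ s i, i ∉ s → ∀ k ≤ k₀,
      (Even (d i) → bb f s (k + d i) + n.choose k ≤ bb f (insert i s) (k + d i) + bb f s k) ∧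
      (Odd (d i) → bb f s (k + d i) + n.choose k ≤
        bb f (insert i s) (k + d i) + bb f (insert i s) k) := by
  obtain ⟨e⟩ : Nonempty ((Σ i, Fin (2 * k₀ + 1) × Fin (d i)) ↪ Fin n) :=
    Function.Embedding.nonempty_of_card_le (by simpa using hn)
  let B : Fin r → Fin (2 * k₀ + 1) → Finset (Fin n) := fun i a =>
    univ.image fun j : Fin (d i) => e ⟨i, a, j⟩
  have hc : ∀ i a, (B i a).card = d i := fun i a => by
    rw [card_image_of_injective, card_univ, Fintype.card_fin]
    intro s t h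
    simpa using e.injective h
  have hB : ∀ i a j b, (i ≠ j ∨ a ≠ b) → Disjoint (B i a) (B j b) := fun i a j b ne => by
    rw [disjoint_left]
    intro y h1 h2
    obtain ⟨s, -, rfl⟩ := mem_image.1 h1
    obtain ⟨t, -, h⟩ := mem_image.1 h2
    have h := e.injective h
    have h3 : j = i := congrArg Sigma.fst h
    subst h3
    simp only [Sigma.mk.injEq, heq_eq_eq, Prod.mk.injEq, true_and] at h
    simp [h.1] at ne
  have xB : ∀ i a, x K n (B i a) ∈ ⋀[K]^(d i) (Fin n → K) := fun i a => by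
    rw [pow_eq]; exact x_mem (hc i a)
  have ht : Tup d fun i => ∑ a, x K n (B i a) := fun i => sum_mem fun a _ => xB i a
  refine ⟨_, ht, fun s i hi k hk => ?_⟩
  have h1 : ∀ a, ∀ y ∈ II (fun i => ∑ a, x K n (B i a)) s,
      dv K (B i a) y ∈ II (fun i => ∑ a, x K n (B i a)) s := fun a y hy => by
    refine map_II _ (fun j hj y => ?_) hy
    have : dv K (B i a) ((∑ b, x K n (B j b)) * y) =
        (∑ b, x K n (B j b)) * ((-1 : K) ^ (d j * d i) • dv K (B i a) y) := by
      rw [sum_mul, sum_mul, map_sum]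
      refine sum_congr rfl fun b _ => ?_
      have := LinearMap.congr_fun (dv_comm (hB i a j b (Or.inl fun c => hi (c ▸ hj))) _
        (gr_comm (xB j b) (xB i a))) y
      simpa [m] using this
    rw [this]
    exact mem_II (f := fun i => ∑ a, x K n (B i a)) hj _
  rw [← bb_add ht]
  refine ⟨fun h => Nat.add_le_add_left (Submodule.finrank_mono (t := JJ _ s k)
      (le_inf inf_le_left fun y hy => ?_)) _,
    fun h => Nat.add_le_add_left (Submodule.finrank_mono (t := JJ _ (insert i s) k)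
      (le_inf inf_le_left fun y hy => ?_)) _⟩
  · exact even_case h (hd i) (by omega) (B i) (hc i) (fun a b c => hB i a i b (Or.inr c)) _ h1
      (fun a y hy => II_mul ht _ hy) hy.1 hy.2
  · rw [II_insert]
    exact odd_case h (by omega) (B i) (hc i) (fun a b c => hB i a i b (Or.inr c)) _ h1
      (fun y hy => II_mul ht _ hy) hy.1 hy.2

end Pool.Agent.H.MP_2bf34e_al
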