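import Pool.Agent.H.MP_2bf34e_al.B

namespace Pool.Agent.H.MP_2bf34e_al

open ExteriorAlgebra Finset Pool.Agent.H.MP_a0e599_al Module PowerSeries

variable {n r : ℕ} {K : Type} [Field K]

lemma bb_empty (f : Fin r → ExteriorAlgebra K (Fin n → K)) (k : ℕ) : bb f ∅ k = 0 := by
  have : JJ f ∅ k = ⊥ := by simp [JJ, II]
  rw [bb, this, finrank_bot]

lemma gen_of_max {d : Fin r → ℕ} {f : Fin r → ExteriorAlgebra K (Fin n → K)} (h : Tup d f)
    (hm : ∀ g : Fin r → ExteriorAlgebra K (Fin n → K), Tup d g → ∀ s k, bb g s k ≤ bb f s k) :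
    Gen d f := by
  refine ⟨h, fun g hg k => ?_⟩
  have a := hf_add h k
  have b := hf_add hg k
  have c := hm g hg univ k
  omega

lemma exists_gen [Infinite K] (d : Fin r → ℕ) :
    ∃ f : Fin r → ExteriorAlgebra K (Fin n → K), Gen d f := by
  obtain ⟨f, h, hm⟩ := exists_max (K := K) (n := n) d
  exact ⟨f, gen_of_max h hm⟩

lemma coeff_pow_choose (k : ℕ) : coeff k ((1 + X) ^ n : ℚ⟦X⟧) = n.choose k := by
  have : ((1 + X) ^ n : ℚ⟦X⟧) = ((1 + Polynomial.X) ^ n : Polynomial ℚ) := by simp
  rw [this, Polynomial.coeff_coe, Polynomial.coeff_one_add_X_pow]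

lemma pos [CharZero K] [Infinite K] : Conj K := by
  intro r d _ hd k₀
  refine ⟨∑ i, (2 * k₀ + 1) * d i, fun n hn f hg => ?_⟩
  obtain ⟨fm, hm1, hm⟩ := exists_max (K := K) (n := n) d
  obtain ⟨f0, h1, h0⟩ := exists_special (K := K) d hd k₀ hn
  have A : ∀ s, ∀ k ≤ k₀, bb fm s k = bb f0 s k := by
    intro s
    induction s using Finset.induction_on with
    | empty => simp [bb_empty]
    | insert i s hi ih =>
      intro k hk
      rcases Nat.lt_or_ge k (d i) with c | c
      · rw [bb_lt hm1 _ _ c, bb_lt h1 _ _ c, ih k hk]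
      obtain ⟨k, rfl⟩ := Nat.exists_eq_add_of_le' c
      have a1 := ih k (by omega)
      have a2 := ih _ hk
      have a3 := hm f0 h1 (insert i s) (k + d i)
      have a4 := hm f0 h1 (insert i s) k
      rcases Nat.even_or_odd (d i) with e | e
      · have := (h0 s i hi k (by omega)).1 e
        have := bb_even hm1 s i k
        omega
      · have := (h0 s i hi k (by omega)).2 e
        have := bb_odd hm1 s i e k
        omega
  have B : ∀ s : Finset (Fin r), (X : ℚ⟦X⟧) ^ (k₀ + 1) ∣
      (PowerSeries.mk fun k => (n.choose k : ℚ) - bb f0 s k) - (1 + X) ^ n *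
        ∏ i ∈ s, if Even (d i) then 1 - X ^ d i else (1 + X ^ d i)⁻¹ := by
    intro s
    induction s using Finset.induction_on with
    | empty =>
      rw [X_pow_dvd_iff]
      intro m _
      simp [bb_empty, coeff_pow_choose]
    | insert i s hi ih =>
      rw [prod_insert hi]
      rcases Nat.even_or_odd (d i) with e | e
      · have : (X : ℚ⟦X⟧) ^ (k₀ + 1) ∣ (PowerSeries.mk fun k => (n.choose k : ℚ) - bb f0 (insert i s) k) -
            (PowerSeries.mk fun k => (n.choose k : ℚ) - bb f0 s k) * (1 - X ^ d i) := by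
          rw [X_pow_dvd_iff]
          intro k hk
          rw [mul_sub, mul_one, map_sub, map_sub, coeff_mul_X_pow']
          simp only [coeff_mk]
          split_ifs with c
          · obtain ⟨k, rfl⟩ := Nat.exists_eq_add_of_le' c
            have := le_antisymm ((h0 s i hi k (by omega)).1 e) (bb_even h1 s i k)
            have := congrArg (Nat.cast : ℕ → ℚ) this
            push_cast at this
            rw [Nat.add_sub_cancel]
            linarith
          · rw [bb_lt h1 _ _ (not_le.1 c)]
            simp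
        rw [if_pos e]
        convert dvd_add this (ih.mul_right (1 - X ^ d i)) using 1
        ring
      · have : (X : ℚ⟦X⟧) ^ (k₀ + 1) ∣ (PowerSeries.mk fun k => (n.choose k : ℚ) - bb f0 (insert i s) k) *
            (1 + X ^ d i) - (PowerSeries.mk fun k => (n.choose k : ℚ) - bb f0 s k) := by
          rw [X_pow_dvd_iff]
          intro k hk
          rw [mul_add, mul_one, map_sub, map_add, coeff_mul_X_pow']
          simp only [coeff_mk]
          split_ifs with c
          · obtain ⟨k, rfl⟩ := Nat.exists_eq_add_of_le' c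
            have := le_antisymm ((h0 s i hi k (by omega)).2 e) (bb_odd h1 s i e k)
            have := congrArg (Nat.cast : ℕ → ℚ) this
            push_cast at this
            rw [Nat.add_sub_cancel]
            linarith
          · rw [bb_lt h1 _ _ (not_le.1 c)]
            simp
        rw [if_neg (Nat.not_even_iff_odd.2 e)]
        have u := PowerSeries.mul_inv_cancel (1 + X ^ d i : ℚ⟦X⟧) (by
          have : d i ≠ 0 := by have := hd i; omega
          simp [this])
        convert (dvd_add this ih).mul_right (1 + X ^ d i)⁻¹ using 1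
        linear_combination (-(PowerSeries.mk fun k => (n.choose k : ℚ) - bb f0 (insert i s) k)) * u
  have C : (X : ℚ⟦X⟧) ^ (k₀ + 1) ∣ (PowerSeries.mk fun j => (hf f j : ℚ)) -
      (PowerSeries.mk fun k => (n.choose k : ℚ) - bb f0 univ k) := by
    rw [X_pow_dvd_iff]
    intro k hk
    have a := hf_add hg.1 k
    have b := hf_add hm1 k
    have c := hm f hg.1 univ k
    have e := hg.2 fm hm1 k
    have g := A univ k (by omega)
    have : hf f k + bb f0 univ k = n.choose k := by omega
    have := congrArg (Nat.cast : ℕ → ℚ) this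
    push_cast at this
    simp only [map_sub, coeff_mk]
    linarith
  have u := PowerSeries.mul_inv_cancel ((1 + X) ^ n : ℚ⟦X⟧) (by simp)
  have D : (X : ℚ⟦X⟧) ^ (k₀ + 1) ∣ QQ n (hf f) - PP d := by
    convert (dvd_add C (B univ)).mul_right ((1 + X) ^ n)⁻¹ using 1
    unfold QQ PP
    linear_combination (∏ i, if Even (d i) then 1 - X ^ d i else (1 + X ^ d i)⁻¹ : ℚ⟦X⟧) * u
  have := X_pow_dvd_iff.1 D k₀ (by omega)
  rwa [map_sub, sub_eq_zero] at this

lemma pow_char (p : ℕ) [hp : Fact p.Prime] [CharP K p] {f : ExteriorAlgebra K (Fin n → K)}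
    (hf : f ∈ V K fun T => T.card = 2) : f ^ p = 0 := by
  haveI : CharP (ExteriorAlgebra K (Fin n → K)) p := charP_of_injective_algebraMap
    (ExteriorAlgebra.algebraMap_leftInverse _).injective p
  induction hf using Submodule.span_induction with
  | mem y hy =>
    obtain ⟨T, hT, rfl⟩ := hy
    refine pow_eq_zero_of_le hp.out.two_le ?_
    have : ¬ Disjoint T T := fun c => by
      rw [(disjoint_self_iff_empty _).1 c] at hT
      simp at hT
    rw [sq, x_mul, ε_zero this]
    simp
  | zero => exact zero_pow hp.out.ne_zero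
  | add a b ha hb h1 h2 =>
    have ha : a ∈ ⋀[K]^2 (Fin n → K) := by rw [pow_eq]; exact ha
    have hb : b ∈ ⋀[K]^2 (Fin n → K) := by rw [pow_eq]; exact hb
    rw [add_pow_char_of_commute p (show a * b = b * a by rw [gr_comm ha hb]; norm_num), h1, h2,
      add_zero]
  | smul c a _ h => rw [smul_pow, h, smul_zero]

lemma neg [Infinite K] (p : ℕ) [hp : Fact p.Prime] [CharP K p] : ¬ Conj K := by
  intro h
  choose N hN using h 1 (fun _ => 2) le_rfl (fun _ => by norm_num)
  set n := ∑ k ∈ range (2 * p + 1), N k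
  obtain ⟨f, hg⟩ := exists_gen (K := K) (n := n) (r := 1) fun _ => 2
  have D : (X : ℚ⟦X⟧) ^ (2 * p + 1) ∣ QQ n (hf f) - PP fun _ : Fin 1 => 2 := by
    rw [X_pow_dvd_iff]
    intro k hk
    rw [map_sub, sub_eq_zero]
    exact hN k n (single_le_sum (fun _ _ => Nat.zero_le _) (mem_range.2 hk)) f hg
  have u := PowerSeries.mul_inv_cancel ((1 + X) ^ n : ℚ⟦X⟧) (by simp)
  have E : (X : ℚ⟦X⟧) ^ (2 * p + 1) ∣ (PowerSeries.mk fun j => (hf f j : ℚ)) - ((1 + X) ^ n -
      (1 + X) ^ n * X ^ 2) := by
    convert D.mul_right ((1 + X) ^ n) using 1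
    have : PP (fun _ : Fin 1 => 2) = 1 - X ^ 2 := by simp [PP]
    rw [this]
    unfold QQ
    linear_combination (-(PowerSeries.mk fun j => (hf f j : ℚ))) * u
  have F : ∀ k, k + 2 ≤ 2 * p → ∀ y ∈ V K fun T : Finset (Fin n) => T.card = k,
      f 0 * y = 0 → y = 0 := by
    intro k hk y hy h0
    have a := X_pow_dvd_iff.1 E (k + 2) (by omega)
    rw [map_sub, map_sub, coeff_mul_X_pow, coeff_pow_choose, coeff_pow_choose, coeff_mk] at a
    have b := congrArg (Nat.cast : ℕ → ℚ) (hf_add hg.1 (k + 2))
    push_cast at b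
    have c : bb f univ (k + 2) = n.choose k := by
      have : (bb f univ (k + 2) : ℚ) = n.choose k := by linarith
      exact_mod_cast this
    have e := bb_add hg.1 ∅ 0 k
    rw [show insert (0 : Fin 1) ∅ = univ from by decide, c, bb_empty, zero_add,
      add_eq_left, Submodule.finrank_eq_zero] at e
    rw [← Submodule.mem_bot K, ← e]
    refine ⟨hy, ?_⟩
    simp [h0]
  have G : ∀ j ≤ p, f 0 ^ j ≠ 0 := by
    intro j hj
    induction j with
    | zero => simp
    | succ j ih =>
      intro c
      refine ih (by omega) (F (2 * j) (by omega) _ ?_ (by rwa [← pow_succ']))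
      rw [← pow_eq, exteriorPower, pow_mul]
      exact Submodule.pow_mem_pow _ (hg.1 0) j
  exact G p le_rfl (pow_char p (by rw [← deg_eq]; exact hg.1 0))

end Pool.Agent.H.MP_2bf34e_al
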